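import Pool.Agent.Helper10.QRH.StA

/-! QRH-A3: the triangle kernel and its Laplace transform. -/

set_option autoImplicit false
open MeasureTheory

namespace Pool.Agent.Helper79.QRH

open Pool.Agent.Helper10.QRH

lemma tri_cont (lam : ℝ) : Continuous (tri lam) := by
  unfold tri
  fun_prop

lemma tri_zero {lam v : ℝ} (hl : 0 < lam) (hv : lam ≤ |v|) : tri lam v = 0 := by
  unfold tri
  have h : 1 - |v| / lam ≤ 0 := by
    have := (one_le_div hl).2 hv
    linarith
  rw [max_eq_left h, zero_div]

lemma tri_nonneg {lam v : ℝ} (hl : 0 < lam) : 0 ≤ tri lam v :=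
  div_nonneg (le_max_left _ _) hl.le

lemma tri_le {lam v : ℝ} (hl : 0 < lam) : tri lam v ≤ 1 / lam := by
  unfold tri
  apply div_le_div_of_nonneg_right _ hl.le
  apply max_le zero_le_one
  have : 0 ≤ |v| / lam := div_nonneg (abs_nonneg _) hl.le
  linarith

lemma integrand_cont (lam : ℝ) (s : ℂ) :
    Continuous (fun v : ℝ => (tri lam v : ℂ) * Complex.exp (-s * v)) := by
  have := tri_cont lam
  fun_prop

lemma integral_eq_interval {lam : ℝ} (hl : 0 < lam) (g : ℝ → ℂ)
    (hg : ∀ v, lam ≤ |v| → g v = 0) : ∫ v : ℝ, g v = ∫ v in (-lam)..lam, g v := by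
  rw [intervalIntegral.integral_of_le (by linarith)]
  symm
  apply setIntegral_eq_integral_of_forall_compl_eq_zero
  intro v hv
  apply hg
  rw [Set.mem_Ioc, not_and_or, not_lt, not_le] at hv
  rcases hv with h | h
  · rw [le_abs]; right; linarith
  · rw [le_abs]; left; exact h.le

lemma KK_eq {lam : ℝ} (hl : 0 < lam) (s : ℂ) :
    KK lam s = ∫ v in (-lam)..lam, (tri lam v : ℂ) * Complex.exp (-s * v) := by
  unfold KK
  apply integral_eq_interval hl
  intro v hv
  rw [tri_zero hl hv]
  simp

lemma norm_exp_le {lam v : ℝ} (s : ℂ) (hv : |v| ≤ lam) :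
    ‖Complex.exp (-s * v)‖ ≤ Real.exp (lam * |s.re|) := by
  rw [Complex.norm_exp]
  apply Real.exp_le_exp.2
  have : (-s * (v : ℂ)).re = -s.re * v := by simp
  rw [this]
  calc -s.re * v ≤ |-s.re * v| := le_abs_self _
    _ = |s.re| * |v| := by rw [abs_mul, abs_neg]
    _ ≤ |s.re| * lam := mul_le_mul_of_nonneg_left hv (abs_nonneg _)
    _ = lam * |s.re| := mul_comm _ _

lemma abs_le_of_mem {lam v : ℝ} (hl : 0 < lam) (hv : v ∈ Set.uIoc (-lam) lam) : |v| ≤ lam := by
  rw [Set.uIoc_of_le (by linarith)] at hv
  exact abs_le.2 ⟨hv.1.le, hv.2⟩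

lemma KK_triv {lam : ℝ} (hl : 0 < lam) (s : ℂ) :
    ‖KK lam s‖ ≤ 2 * Real.exp (lam * |s.re|) := by
  rw [KK_eq hl]
  have h := intervalIntegral.norm_integral_le_of_norm_le_const
    (a := -lam) (b := lam) (C := 1 / lam * Real.exp (lam * |s.re|))
    (f := fun v : ℝ => (tri lam v : ℂ) * Complex.exp (-s * v)) (by
      intro v hv
      rw [norm_mul, Complex.norm_real, Real.norm_of_nonneg (tri_nonneg hl)]
      exact mul_le_mul (tri_le hl) (norm_exp_le s (abs_le_of_mem hl hv)) (norm_nonneg _)
        (by positivity))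
  refine h.trans (le_of_eq ?_)
  rw [show lam - -lam = 2 * lam by ring, abs_of_pos (show 0 < 2 * lam by linarith)]
  field_simp

lemma KK_closed {lam : ℝ} (hl : 0 < lam) {s : ℂ} (hs : s ≠ 0) :
    KK lam s = (Complex.exp (s * lam) + Complex.exp (-s * lam) - 2) / ((lam : ℂ) * s) ^ 2 := by
  have hlC : (lam : ℂ) ≠ 0 := by exact_mod_cast hl.ne'
  rw [KK_eq hl]
  have hc := integrand_cont lam s
  rw [← intervalIntegral.integral_add_adjacent_intervals (b := 0)
    (hc.intervalIntegrable _ _) (hc.intervalIntegrable _ _)]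
  have hexp : ∀ v : ℝ, HasDerivAt (fun v : ℝ => Complex.exp (-s * v))
      (Complex.exp (-s * v) * (-s)) v := by
    intro v
    have h1 : HasDerivAt (fun v : ℝ => -s * (v : ℂ)) (-s) v := by
      have := (Complex.ofRealCLM.hasDerivAt (x := v)).const_mul (-s)
      simpa using this
    exact h1.cexp
  have hid : ∀ v : ℝ, HasDerivAt (fun v : ℝ => (v : ℂ)) 1 v := by
    intro v
    have := (hasDerivAt_id v).ofReal_comp
    simpa using this
  have h1 : ∫ v in (-lam)..0, (tri lam v : ℂ) * Complex.exp (-s * v) =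
      (-1 / (lam * s ^ 2) - 1 / s) / lam + Complex.exp (s * lam) / (lam ^ 2 * s ^ 2) := by
    have hcongr : ∫ v in (-lam)..0, (tri lam v : ℂ) * Complex.exp (-s * v) =
        ∫ v in (-lam)..0, ((1 + (v : ℂ) / lam) / lam) * Complex.exp (-s * v) := by
      apply intervalIntegral.integral_congr
      intro v hv
      rw [Set.uIcc_of_le (by linarith)] at hv
      have h3 : tri lam v = (1 + v / lam) / lam := by
        unfold tri
        rw [abs_of_nonpos hv.2, max_eq_right]
        · ring
        · have : -v / lam ≤ 1 := by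
            rw [div_le_one hl]
            linarith [hv.1]
          linarith
      show (tri lam v : ℂ) * _ = _
      rw [h3]
      push_cast
      ring
    rw [hcongr]
    have hQ : ∀ v : ℝ, HasDerivAt (fun v : ℝ => Complex.exp (-s * v) *
        ((-1 / ((lam : ℂ) ^ 2 * s)) * (v : ℂ) + (-1 / (lam * s ^ 2) - 1 / s) / lam))
        (((1 + (v : ℂ) / lam) / lam) * Complex.exp (-s * v)) v := by
      intro v
      have h4 := (hexp v).mul (((hid v).const_mul (-1 / ((lam : ℂ) ^ 2 * s))).add_const
        ((-1 / ((lam : ℂ) * s ^ 2) - 1 / s) / lam))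
      refine h4.congr_deriv ?_
      field_simp
      ring
    rw [intervalIntegral.integral_eq_sub_of_hasDerivAt (fun v _ => hQ v)
      (by apply Continuous.intervalIntegrable; fun_prop)]
    have h5 : -s * ((-lam : ℝ) : ℂ) = s * lam := by push_cast; ring
    rw [h5]
    push_cast
    rw [mul_zero, Complex.exp_zero]
    field_simp
    ring
  have h2 : ∫ v in (0 : ℝ)..lam, (tri lam v : ℂ) * Complex.exp (-s * v) =
      Complex.exp (-s * lam) / (lam ^ 2 * s ^ 2) - (1 / (lam * s ^ 2) - 1 / s) / lam := by
    have hcongr : ∫ v in (0 : ℝ)..lam, (tri lam v : ℂ) * Complex.exp (-s * v) =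
        ∫ v in (0 : ℝ)..lam, ((1 - (v : ℂ) / lam) / lam) * Complex.exp (-s * v) := by
      apply intervalIntegral.integral_congr
      intro v hv
      rw [Set.uIcc_of_le (by linarith)] at hv
      have h3 : tri lam v = (1 - v / lam) / lam := by
        unfold tri
        rw [abs_of_nonneg hv.1, max_eq_right]
        have : v / lam ≤ 1 := by
          rw [div_le_one hl]
          linarith [hv.2]
        linarith
      show (tri lam v : ℂ) * _ = _
      rw [h3]
      push_cast
      ring
    rw [hcongr]
    have hQ : ∀ v : ℝ, HasDerivAt (fun v : ℝ => Complex.exp (-s * v) *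
        ((1 / ((lam : ℂ) ^ 2 * s)) * (v : ℂ) + (1 / (lam * s ^ 2) - 1 / s) / lam))
        (((1 - (v : ℂ) / lam) / lam) * Complex.exp (-s * v)) v := by
      intro v
      have h4 := (hexp v).mul (((hid v).const_mul (1 / ((lam : ℂ) ^ 2 * s))).add_const
        ((1 / ((lam : ℂ) * s ^ 2) - 1 / s) / lam))
      refine h4.congr_deriv ?_
      field_simp
      ring
    rw [intervalIntegral.integral_eq_sub_of_hasDerivAt (fun v _ => hQ v)
      (by apply Continuous.intervalIntegrable; fun_prop)]
    push_cast
    rw [mul_zero, Complex.exp_zero]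
    field_simp
    ring
  rw [h1, h2]
  field_simp
  ring

lemma KK_bound {lam : ℝ} (hl : 0 < lam) (s : ℂ) :
    ‖KK lam s‖ ≤ 6 * Real.exp (lam * |s.re|) / (1 + (lam * s.im) ^ 2) := by
  have hE : 1 ≤ Real.exp (lam * |s.re|) := by
    apply Real.one_le_exp
    positivity
  have h0 := KK_triv hl s
  rw [le_div_iff₀ (by positivity)]
  have h1 : ‖KK lam s‖ * (lam * s.im) ^ 2 ≤ 4 * Real.exp (lam * |s.re|) := by
    rcases eq_or_ne s 0 with rfl | hs
    · simp
    · rw [KK_closed hl hs, norm_div, norm_pow, norm_mul, Complex.norm_real,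
        Real.norm_of_nonneg hl.le]
      have hsn : 0 < ‖s‖ := norm_pos_iff.2 hs
      have h2 : (lam * s.im) ^ 2 ≤ (lam * ‖s‖) ^ 2 := by
        rw [mul_pow, mul_pow]
        apply mul_le_mul_of_nonneg_left _ (by positivity)
        exact sq_le_sq.2 (by rw [abs_of_nonneg (norm_nonneg _)]; exact Complex.abs_im_le_norm s)
      have h3 : ‖Complex.exp (s * lam) + Complex.exp (-s * lam) - 2‖ ≤
          4 * Real.exp (lam * |s.re|) := by
        have e1 : ‖Complex.exp (s * lam)‖ ≤ Real.exp (lam * |s.re|) := by
          have := norm_exp_le (lam := lam) (v := -lam) s (by rw [abs_neg, abs_of_pos hl])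
          have h5 : -s * ((-lam : ℝ) : ℂ) = s * lam := by push_cast; ring
          rwa [h5] at this
        have e2 : ‖Complex.exp (-s * lam)‖ ≤ Real.exp (lam * |s.re|) :=
          norm_exp_le (lam := lam) (v := lam) s (by rw [abs_of_pos hl])
        have e3 : ‖(2 : ℂ)‖ = 2 := by simp
        calc ‖Complex.exp (s * lam) + Complex.exp (-s * lam) - 2‖
            ≤ ‖Complex.exp (s * lam) + Complex.exp (-s * lam)‖ + ‖(2 : ℂ)‖ := norm_sub_le _ _
          _ ≤ ‖Complex.exp (s * lam)‖ + ‖Complex.exp (-s * lam)‖ + ‖(2 : ℂ)‖ := by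
              gcongr
              exact norm_add_le _ _
          _ ≤ 4 * Real.exp (lam * |s.re|) := by rw [e3]; linarith
      calc ‖Complex.exp (s * lam) + Complex.exp (-s * lam) - 2‖ / (lam * ‖s‖) ^ 2 *
            (lam * s.im) ^ 2
          ≤ ‖Complex.exp (s * lam) + Complex.exp (-s * lam) - 2‖ / (lam * ‖s‖) ^ 2 *
            (lam * ‖s‖) ^ 2 := by gcongr
        _ = ‖Complex.exp (s * lam) + Complex.exp (-s * lam) - 2‖ := by
            rw [div_mul_cancel₀]
            positivity
        _ ≤ _ := h3
  rw [mul_add, mul_one]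
  linarith

lemma KK_diff {lam : ℝ} (hl : 0 < lam) : Differentiable ℂ (KK lam) := by
  intro s
  have hfun : KK lam = fun s => ∫ v in (-lam)..lam, (tri lam v : ℂ) * Complex.exp (-s * v) := by
    funext s
    exact KK_eq hl s
  rw [hfun]
  have hD : ∀ (v : ℝ) (z : ℂ), HasDerivAt (fun z : ℂ => (tri lam v : ℂ) * Complex.exp (-z * v))
      ((tri lam v : ℂ) * (Complex.exp (-z * v) * (-(v : ℂ)))) z := by
    intro v z
    have h1 : HasDerivAt (fun z : ℂ => -z * (v : ℂ)) (-(v : ℂ)) z := by
      have := (hasDerivAt_id z).neg.mul_const (v : ℂ)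
      simpa using this
    exact h1.cexp.const_mul _
  have key := intervalIntegral.hasDerivAt_integral_of_dominated_loc_of_deriv_le
    (μ := volume) (𝕜 := ℂ)
    (F := fun (z : ℂ) (v : ℝ) => (tri lam v : ℂ) * Complex.exp (-z * v))
    (F' := fun (z : ℂ) (v : ℝ) => (tri lam v : ℂ) * (Complex.exp (-z * v) * (-(v : ℂ))))
    (x₀ := s) (a := -lam) (b := lam) (s := Metric.ball s 1)
    (bound := fun _ => 1 / lam * (Real.exp (lam * (|s.re| + 1)) * lam))
    (Metric.ball_mem_nhds s one_pos)
    (Filter.Eventually.of_forall (fun z => (integrand_cont lam z).aestronglyMeasurable.restrict))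
    ((integrand_cont lam s).intervalIntegrable _ _)
    (by
      have := tri_cont lam
      apply Continuous.aestronglyMeasurable
      fun_prop)
    (Filter.Eventually.of_forall (by
      intro v hv z hz
      have hv' := abs_le_of_mem hl hv
      rw [norm_mul, norm_mul, Complex.norm_real, Real.norm_of_nonneg (tri_nonneg hl), norm_neg,
        Complex.norm_real, Real.norm_eq_abs]
      have hre : |z.re| ≤ |s.re| + 1 := by
        have h6 : |(z - s).re| ≤ ‖z - s‖ := Complex.abs_re_le_norm _
        have h7 : ‖z - s‖ < 1 := by rwa [← dist_eq_norm]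
        have h8 : |z.re| ≤ |z.re - s.re| + |s.re| := by
          have := abs_add_le (z.re - s.re) s.re
          simpa using this
        rw [Complex.sub_re] at h6
        linarith
      have h9 : ‖Complex.exp (-z * v)‖ ≤ Real.exp (lam * (|s.re| + 1)) :=
        (norm_exp_le z hv').trans (Real.exp_le_exp.2 (mul_le_mul_of_nonneg_left hre hl.le))
      exact mul_le_mul (tri_le hl) (mul_le_mul h9 hv' (abs_nonneg _) (by positivity))
        (by positivity) (by positivity)))
    (by exact intervalIntegrable_const)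
    (Filter.Eventually.of_forall (fun v _ z _ => hD v z))
  exact key.2.differentiableAt

lemma KK_cont {lam : ℝ} (hl : 0 < lam) : Continuous (KK lam) := (KK_diff hl).continuous

lemma KK_inv {lam : ℝ} (c v : ℝ) (hl : 0 < lam) : (tri lam v : ℂ) =
      (1 / (2 * Real.pi)) * ∫ t : ℝ, KK lam (c + t * Complex.I) *
        Complex.exp ((c + t * Complex.I) * v) := by
  set f : ℝ → ℂ := fun v => (tri lam v : ℂ) * Complex.exp (-(c : ℂ) * v) with hf
  have hfc : Continuous f := integrand_cont lam c
  have hfi : Integrable f := by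
    apply hfc.integrable_of_hasCompactSupport
    apply HasCompactSupport.of_support_subset_isCompact (isCompact_Icc (a := -lam) (b := lam))
    intro x hx
    by_contra hx'
    apply hx
    have : lam ≤ |x| := by
      rw [Set.mem_Icc, not_and_or, not_le, not_le] at hx'
      rcases hx' with h | h
      · rw [le_abs]; right; linarith
      · rw [le_abs]; left; exact h.le
    simp only [hf]
    rw [tri_zero hl this]
    simp
  have hF : ∀ ξ : ℝ, FourierTransform.fourier f ξ = KK lam (c + (2 * Real.pi * ξ : ℝ) * Complex.I) := by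
    intro ξ
    rw [Real.fourier_eq']
    unfold KK
    congr 1
    funext x
    simp only [hf, smul_eq_mul]
    rw [mul_left_comm, ← Complex.exp_add]
    congr 2
    simp only [RCLike.inner_apply, conj_trivial]
    push_cast
    ring
  have hFi : Integrable (FourierTransform.fourier f) := by
    have hfun : FourierTransform.fourier f =
        fun ξ : ℝ => KK lam (c + (2 * Real.pi * ξ : ℝ) * Complex.I) := funext hF
    rw [hfun]
    have hcon : Continuous (fun ξ : ℝ => KK lam (c + (2 * Real.pi * ξ : ℝ) * Complex.I)) := by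
      apply (KK_cont hl).comp
      fun_prop
    have hint : Integrable (fun x : ℝ => 6 * Real.exp (lam * |c|) *
        (1 + (lam * (2 * Real.pi) * x) ^ 2)⁻¹) := by
      apply Integrable.const_mul
      exact integrable_inv_one_add_sq.comp_mul_left' (by positivity)
    refine hint.mono' hcon.aestronglyMeasurable (Filter.Eventually.of_forall ?_)
    intro ξ
    refine (KK_bound hl _).trans (le_of_eq ?_)
    have h1 : ((c : ℂ) + (2 * Real.pi * ξ : ℝ) * Complex.I).re = c := by simp
    have h2 : ((c : ℂ) + (2 * Real.pi * ξ : ℝ) * Complex.I).im = 2 * Real.pi * ξ := by simp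
    rw [h1, h2, div_eq_mul_inv]
    congr 3
    ring
  have hinv := congrFun (hfc.fourierInv_fourier_eq hfi hFi) v
  rw [Real.fourierInv_eq'] at hinv
  simp only [hF, smul_eq_mul, RCLike.inner_apply, conj_trivial] at hinv
  have hsub := MeasureTheory.Measure.integral_comp_mul_left
    (fun t : ℝ => KK lam (c + t * Complex.I) * Complex.exp ((c + t * Complex.I) * v)) (2 * Real.pi)
  have hpi : (0 : ℝ) < 2 * Real.pi := by positivity
  rw [abs_of_pos (inv_pos.2 hpi)] at hsub
  have h4 : ∫ (x : ℝ), KK lam (c + (2 * Real.pi * x : ℝ) * Complex.I) *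
        Complex.exp ((c + (2 * Real.pi * x : ℝ) * Complex.I) * v) =
      Complex.exp (c * v) * f v := by
    rw [← hinv, ← integral_const_mul]
    congr 1
    funext x
    rw [mul_left_comm, mul_comm (Complex.exp (c * v)), mul_assoc, mul_left_comm]
    rw [mul_comm (Complex.exp _) (KK _ _ * _), mul_assoc, ← Complex.exp_add]
    congr 2
    push_cast
    ring
  rw [h4] at hsub
  have h5 : Complex.exp (c * v) * f v = (tri lam v : ℂ) := by
    simp only [hf]
    rw [mul_left_comm, ← Complex.exp_add]
    simp
  rw [h5] at hsub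
  rw [hsub, Complex.real_smul]
  push_cast
  rw [one_div]

theorem kFacts : KFacts where
  diff := fun _ hl => KK_diff hl
  bound := by
    refine ⟨6 * Real.exp 2, ?_⟩
    intro lam hl hl1 s h0 h2
    refine (KK_bound hl s).trans ?_
    gcongr
    rw [abs_of_nonneg h0]
    nlinarith
  inv := fun _ c v hl => KK_inv c v hl

end Pool.Agent.Helper79.QRH
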