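import Pool.Agent.Helper10.QRH.StB

/-!
# QRH-B5: upper bound sieve for `n = p m`, both variables sieved
-/

set_option autoImplicit false

open Finset Real

namespace Pool.Agent.Helper79.QRH

open Pool.Agent.Helper10.QRH
open Pool.Agent.Helper44

/-- Blocks for the sieve of pairs with two levels. -/
noncomputable def blz (z w : ℝ) (j : ℕ) : Finset (ℕ × Bool) := by
  classical exact (blk w j).filter (fun i => i.2 = true ∨ (i.1 : ℝ) ≤ z)

theorem blz_sub (z w : ℝ) (j : ℕ) : blz z w j ⊆ blk w j := by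
  classical
  unfold blz
  exact Finset.filter_subset _ _

theorem mem_blz {z w : ℝ} {j : ℕ} {i : ℕ × Bool} :
    i ∈ blz z w j ↔ i ∈ blk w j ∧ (i.2 = true ∨ (i.1 : ℝ) ≤ z) := by
  classical
  unfold blz
  rw [Finset.mem_filter]

/-- The sieve for pairs with two levels `z ≤ w`. -/
theorem sieve_pairs_zw : ∃ K : ℝ, 1 ≤ K ∧ ∀ w : ℝ, 2 ≤ w → ∀ z : ℝ, 0 ≤ z → z ≤ w →
    ∀ (Ω : Finset (ℕ × ℕ)) (X E : ℝ), 0 ≤ X → 0 ≤ E →
    (∀ d e : ℕ, 0 < d → 0 < e →
      |evCount Ω (fun t => d ∣ t.1 ∧ e ∣ t.2) - X / (d * e)| ≤ E) →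
    evCount Ω (fun t => ∀ q : ℕ, q.Prime → ((q : ℝ) ≤ w → ¬ q ∣ t.1) ∧
        ((q : ℝ) ≤ z → ¬ q ∣ t.2)) ≤
      2 * X * ((∏ q ∈ primesUpTo w, (1 - (1 : ℝ) / q)) *
        ∏ q ∈ primesUpTo z, (1 - (1 : ℝ) / q)) + E * w ^ K := by
  classical
  obtain ⟨S0, hS0, hS⟩ := sum_dens_blk_le
  -- choose b
  have hsum : Summable (fun n : ℕ => S0 ^ n / (n.factorial : ℝ)) :=
    Real.summable_pow_div_factorial S0
  obtain ⟨s0, hs0⟩ := summable_iff_vanishing_norm.mp hsum (Real.exp (-(2 * S0)) / 2) (by positivity)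
  set b := s0.sup id + 1 with hb
  set K0 : ℝ := 12 * b + 18 with hK0
  have hK0' : 1 ≤ K0 := by
    rw [hK0]
    have : (0 : ℝ) ≤ (b : ℝ) := Nat.cast_nonneg _
    linarith
  refine ⟨K0, hK0', ?_⟩
  intro w hw z hz0 hzw Ω X E hX hE hcnt
  have hw1 : (1 : ℝ) ≤ w := by linarith
  have hw0 : (0 : ℝ) < w := by linarith
  have hdisj : ∀ i j : Fin (nb w), i ≠ j → Disjoint (blz z w i) (blz z w j) := by
    intro i j hij
    exact Finset.disjoint_of_subset_left (blz_sub z w i) (Finset.disjoint_of_subset_right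
      (blz_sub z w j) (blk_disjoint hw1 (fun h => hij (Fin.ext h))))
  have hunion : (Finset.univ : Finset (Fin (nb w))).biUnion (fun j => blz z w j) =
      (primesUpTo w ×ˢ ({true} : Finset Bool)) ∪ (primesUpTo z ×ˢ ({false} : Finset Bool)) := by
    ext i
    rw [Finset.mem_union, Finset.mem_product, Finset.mem_product, Finset.mem_singleton,
      Finset.mem_singleton, mem_primesUpTo hw0.le, mem_primesUpTo hz0, Finset.mem_biUnion]
    constructor
    · rintro ⟨j, _, hj⟩
      rw [mem_blz] at hj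
      have h1 : i ∈ (Finset.univ : Finset (Fin (nb w))).biUnion (fun j => blk w j) :=
        Finset.mem_biUnion.mpr ⟨j, Finset.mem_univ _, hj.1⟩
      rw [biUnion_blk hw, Finset.mem_product, mem_primesUpTo hw0.le] at h1
      by_cases h2 : i.2 = true
      · exact Or.inl ⟨h1.1, h2⟩
      · right
        exact ⟨⟨h1.1.1, hj.2.resolve_left h2⟩, by simpa using h2⟩
    · intro h
      have h1 : i ∈ (Finset.univ : Finset (Fin (nb w))).biUnion (fun j => blk w j) := by
        rw [biUnion_blk hw, Finset.mem_product, mem_primesUpTo hw0.le]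
        rcases h with h | h
        · exact ⟨h.1, Finset.mem_univ _⟩
        · exact ⟨⟨h.1.1, h.1.2.trans hzw⟩, Finset.mem_univ _⟩
      rw [Finset.mem_biUnion] at h1
      obtain ⟨j, _, hj⟩ := h1
      refine ⟨j, Finset.mem_univ _, ?_⟩
      rw [mem_blz]
      refine ⟨hj, ?_⟩
      rcases h with h | h
      · exact Or.inl h.2
      · exact Or.inr h.1.2
  have hsubU : ∀ I : Finset (ℕ × Bool),
      I ⊆ Finset.univ.biUnion (fun j : Fin (nb w) => blz z w j) → ∀ i ∈ I, i.1.Prime := by
    intro I hI i hi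
    have := hI hi
    rw [Finset.mem_biUnion] at this
    obtain ⟨j, _, hj⟩ := this
    rw [mem_blz, mem_blk] at hj
    exact hj.1.2
  have hcnt' : ∀ I : Finset (ℕ × Bool),
      I ⊆ Finset.univ.biUnion (fun j : Fin (nb w) => blz z w j) →
      |evCount Ω (fun ω => ∀ i ∈ I, occP i ω) - X * ∏ i ∈ I, dens i| ≤ E := by
    intro I hI
    have hpr := hsubU I hI
    have hev : (fun ω : ℕ × ℕ => ∀ i ∈ I, occP i ω) =
        (fun t => sideProd I true ∣ t.1 ∧ sideProd I false ∣ t.2) := by
      funext ω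
      rw [sideProd_dvd_iff I hpr, sideProd_dvd_iff I hpr]
      apply propext
      unfold occP
      constructor
      · intro h
        constructor
        · intro i hi h2
          have := h i hi
          simpa [h2] using this
        · intro i hi h2
          have := h i hi
          simpa [h2] using this
      · rintro ⟨h1, h2⟩ i hi
        by_cases h3 : i.2 = true
        · simp only [h3, if_true]; exact h1 i hi h3
        · simp only [h3]
          exact h2 i hi (by simpa using h3)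
    rw [hev, prod_dens, mul_one_div]
    exact hcnt _ _ (sideProd_pos I hpr _) (sideProd_pos I hpr _)
  have hdm : ∀ j : ℕ, ∀ i ∈ blz z w j, 0 ≤ dens i ∧ dens i ≤ 1 / 2 := fun j i hi =>
    dens_mem (blz_sub z w j hi)
  have hSz : ∀ j : ℕ, ∑ i ∈ blz z w j, dens i ≤ S0 := by
    intro j
    refine le_trans ?_ (hS w hw j)
    exact Finset.sum_le_sum_of_subset_of_nonneg (blz_sub z w j) fun i hi _ => (dens_mem hi).1
  have hVlow : ∀ j : Fin (nb w), Real.exp (-(2 * S0)) ≤ ∏ i ∈ blz z w j, (1 - dens i) := by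
    intro j
    calc Real.exp (-(2 * S0)) ≤ Real.exp (-∑ i ∈ blz z w j, 2 * dens i) := by
          apply Real.exp_le_exp.mpr
          rw [← Finset.mul_sum]
          have := hSz j
          linarith
      _ = ∏ i ∈ blz z w j, Real.exp (-(2 * dens i)) := by
          rw [← Finset.sum_neg_distrib, Real.exp_sum]
      _ ≤ _ := by
          apply Finset.prod_le_prod
          · intro i _; exact (Real.exp_pos _).le
          · intro i hi
            have := hdm j i hi
            exact one_sub_ge_exp this.1 this.2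
  have hr : ∑ j : Fin (nb w), es (blz z w j) (2 * (b + (j : ℕ)) + 1) dens /
      ∏ i ∈ blz z w j, (1 - dens i) ≤ 1 / 2 := by
    have hterm : ∀ j : Fin (nb w), es (blz z w j) (2 * (b + (j : ℕ)) + 1) dens /
        ∏ i ∈ blz z w j, (1 - dens i) ≤
        (S0 ^ (2 * (b + (j : ℕ)) + 1) / ((2 * (b + (j : ℕ)) + 1).factorial : ℝ)) *
          Real.exp (2 * S0) := by
      intro j
      have h1 : es (blz z w j) (2 * (b + (j : ℕ)) + 1) dens ≤
          S0 ^ (2 * (b + (j : ℕ)) + 1) / ((2 * (b + (j : ℕ)) + 1).factorial : ℝ) := by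
        refine (es_le_pow_div_factorial _ _ (fun i hi => (hdm j i hi).1) _).trans ?_
        apply div_le_div_of_nonneg_right _ (by positivity)
        apply pow_le_pow_left₀ (Finset.sum_nonneg fun i hi => (hdm j i hi).1) (hSz j)
      have h2 := hVlow j
      have h3 : 0 < Real.exp (-(2 * S0)) := Real.exp_pos _
      rw [div_le_iff₀ (h3.trans_le h2)]
      calc es (blz z w j) (2 * (b + (j : ℕ)) + 1) dens
          ≤ S0 ^ (2 * (b + (j : ℕ)) + 1) / ((2 * (b + (j : ℕ)) + 1).factorial : ℝ) * 1 := by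
            rw [mul_one]; exact h1
        _ = S0 ^ (2 * (b + (j : ℕ)) + 1) / ((2 * (b + (j : ℕ)) + 1).factorial : ℝ) *
              (Real.exp (2 * S0) * Real.exp (-(2 * S0))) := by
            rw [← Real.exp_add]; simp
        _ ≤ S0 ^ (2 * (b + (j : ℕ)) + 1) / ((2 * (b + (j : ℕ)) + 1).factorial : ℝ) *
              (Real.exp (2 * S0) * ∏ i ∈ blz z w j, (1 - dens i)) := by
            gcongr
        _ = _ := by ring
    calc ∑ j : Fin (nb w), es (blz z w j) (2 * (b + (j : ℕ)) + 1) dens /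
          ∏ i ∈ blz z w j, (1 - dens i)
        ≤ ∑ j : Fin (nb w), (S0 ^ (2 * (b + (j : ℕ)) + 1) /
            ((2 * (b + (j : ℕ)) + 1).factorial : ℝ)) * Real.exp (2 * S0) :=
          Finset.sum_le_sum fun j _ => hterm j
      _ = (∑ n ∈ (Finset.univ : Finset (Fin (nb w))).image
            (fun j : Fin (nb w) => 2 * (b + (j : ℕ)) + 1),
            S0 ^ n / (n.factorial : ℝ)) * Real.exp (2 * S0) := by
          rw [← Finset.sum_mul, Finset.sum_image]
          intro i _ j _ hij
          apply Fin.ext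
          simp only at hij
          omega
      _ ≤ (Real.exp (-(2 * S0)) / 2) * Real.exp (2 * S0) := by
          apply mul_le_mul_of_nonneg_right _ (Real.exp_pos _).le
          have h4 := hs0 ((Finset.univ : Finset (Fin (nb w))).image
            (fun j : Fin (nb w) => 2 * (b + (j : ℕ)) + 1)) ?_
          · rw [Real.norm_eq_abs] at h4
            exact (le_abs_self _).trans h4.le
          · rw [Finset.disjoint_left]
            intro n hn hn'
            rw [Finset.mem_image] at hn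
            obtain ⟨j, _, rfl⟩ := hn
            have : id (2 * (b + (j : ℕ)) + 1) ≤ s0.sup id := Finset.le_sup (f := id) hn'
            simp only [id] at this
            omega
      _ = 1 / 2 := by
          rw [div_mul_eq_mul_div, ← Real.exp_add]; simp
  have hmain := (brun_hooley Ω occP (fun j : Fin (nb w) => blz z w j) hdisj dens
    (fun j i hi => hdm j i hi) X E hX hE hcnt' (fun j => 2 * (b + (j : ℕ)))
    (fun j => even_two_mul _) hr).1
  -- identify the event
  have hevent : (fun ω : ℕ × ℕ => ∀ j : Fin (nb w), ∀ i ∈ blz z w j, ¬ occP i ω) =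
      (fun t => ∀ q : ℕ, q.Prime → ((q : ℝ) ≤ w → ¬ q ∣ t.1) ∧ ((q : ℝ) ≤ z → ¬ q ∣ t.2)) := by
    funext ω
    apply propext
    constructor
    · intro h q hq
      have hall : ∀ i ∈ (Finset.univ : Finset (Fin (nb w))).biUnion (fun j => blz z w j),
          ¬ occP i ω := by
        intro i hi
        rw [Finset.mem_biUnion] at hi
        obtain ⟨j, _, hj⟩ := hi
        exact h j i hj
      rw [hunion] at hall
      constructor
      · intro hqw
        have h3 := hall (q, true) (by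
          rw [Finset.mem_union, Finset.mem_product, mem_primesUpTo hw0.le]
          exact Or.inl ⟨⟨hq, hqw⟩, Finset.mem_singleton_self _⟩)
        unfold occP at h3
        simpa using h3
      · intro hqz
        have h3 := hall (q, false) (by
          rw [Finset.mem_union, Finset.mem_product, Finset.mem_product, mem_primesUpTo hz0]
          exact Or.inr ⟨⟨hq, hqz⟩, Finset.mem_singleton_self _⟩)
        unfold occP at h3
        simpa using h3
    · intro h j i hi
      have hi' : i ∈ (Finset.univ : Finset (Fin (nb w))).biUnion (fun j => blz z w j) :=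
        Finset.mem_biUnion.mpr ⟨j, Finset.mem_univ _, hi⟩
      rw [hunion, Finset.mem_union, Finset.mem_product, Finset.mem_product,
        Finset.mem_singleton, Finset.mem_singleton, mem_primesUpTo hw0.le,
        mem_primesUpTo hz0] at hi'
      unfold occP
      rcases hi' with hi' | hi'
      · rw [if_pos hi'.2]
        exact (h i.1 hi'.1.1).1 hi'.1.2
      · rw [hi'.2]
        simp only [Bool.false_eq_true, if_false]
        exact (h i.1 hi'.1.1).2 hi'.1.2
  rw [hevent] at hmain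
  -- the product
  have hprodV : ∏ j : Fin (nb w), ∏ i ∈ blz z w j, (1 - dens i) =
      (∏ q ∈ primesUpTo w, (1 - (1 : ℝ) / q)) * ∏ q ∈ primesUpTo z, (1 - (1 : ℝ) / q) := by
    rw [← Finset.prod_biUnion (fun i _ j _ hij => hdisj i j hij), hunion, Finset.prod_union]
    · rw [Finset.prod_product, Finset.prod_product]
      unfold Helper44.dens
      simp only [Finset.prod_singleton]
    · rw [Finset.disjoint_left]
      intro i h1 h2
      rw [Finset.mem_product, Finset.mem_singleton] at h1 h2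
      rw [h1.2] at h2
      exact absurd h2.2 (by decide)
  rw [hprodV] at hmain
  refine hmain.trans ?_
  have hprod := prod_blk_card_le hw b
  have h2 : E * ∏ j : Fin (nb w), (((blz z w j).card : ℝ) + 1) ^ (2 * (b + (j : ℕ)) + 1) ≤
      E * w ^ K0 := by
    apply mul_le_mul_of_nonneg_left _ hE
    refine le_trans ?_ hprod
    apply Finset.prod_le_prod
    · intro j _; positivity
    · intro j _
      apply pow_le_pow_left₀ (by positivity)
      have : ((blz z w j).card : ℝ) ≤ ((blk w j).card : ℝ) := by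
        exact_mod_cast Finset.card_le_card (blz_sub z w j)
      linarith
  linarith

theorem pairSieve (h : Lattice) : PairSieve := by
  classical
  obtain ⟨K, hK, hS⟩ := sieve_pairs_zw
  obtain ⟨c, C1, hc, hC1, hM⟩ := mertens_prod
  obtain ⟨XL, hL⟩ := h
  have hK0 : 0 < K := by linarith
  have hlog2 : 0 < Real.log 2 := Real.log_pos (by norm_num)
  obtain ⟨θ, hθ⟩ : ∃ θ : ℝ, θ = 1 / (200 * K) := ⟨_, rfl⟩
  have hθ0 : 0 < θ := by rw [hθ]; positivity
  have hθK : θ * K = 1 / 200 := by rw [hθ]; field_simp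
  have hθ1 : θ ≤ 1 / 200 := by
    rw [← hθK]
    nlinarith
  refine ⟨θ, 2 * Real.log 2 * C1 / θ + 1, hθ0, by positivity, ?_⟩
  intro η hη hηθ
  -- thresholds
  have e1 : ∀ᶠ x : ℝ in Filter.atTop, 2 ≤ x ^ θ :=
    (tendsto_rpow_atTop hθ0).eventually_ge_atTop 2
  have e2 : ∀ᶠ x : ℝ in Filter.atTop, 2 ≤ x ^ η :=
    (tendsto_rpow_atTop hη).eventually_ge_atTop 2
  have e3 : ∀ᶠ x : ℝ in Filter.atTop, Real.log x ^ 2 ≤ c / η * x ^ (0.005 : ℝ) := by
    have h1 := (isLittleO_log_rpow_rpow_atTop (s := 0.005) (2 : ℝ) (by norm_num)).bound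
      (show (0 : ℝ) < c / η by positivity)
    filter_upwards [h1, Filter.eventually_ge_atTop (1 : ℝ)] with x hx hx1
    rw [Real.norm_eq_abs, Real.norm_eq_abs, abs_of_nonneg (show (0 : ℝ) ≤ x ^ (0.005 : ℝ) from
      Real.rpow_nonneg (by linarith) _)] at hx
    have h2 : Real.log x ^ (2 : ℝ) = Real.log x ^ 2 := by
      rw [← Real.rpow_natCast]
      norm_num
    rw [h2] at hx
    exact (le_abs_self _).trans hx
  have e4 : ∀ᶠ x : ℝ in Filter.atTop, (3 : ℝ) ≤ x := Filter.eventually_ge_atTop 3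
  have eall := ((e1.and e2).and (e3.and e4))
  obtain ⟨X1, hX1⟩ := Filter.eventually_atTop.1
    ((tendsto_natCast_atTop_atTop (R := ℝ)).eventually eall)
  refine ⟨max XL X1, ?_⟩
  intro x h D hx hh1 hh2 hD1 hD2
  obtain ⟨⟨hw2, hz2⟩, hlogx, hx3⟩ := hX1 x ((le_max_right _ _).trans hx)
  have hxL : XL ≤ x := (le_max_left _ _).trans hx
  have hx0 : (0 : ℝ) < x := by linarith
  have hx1 : (1 : ℝ) ≤ x := by linarith
  have hlx : 0 < Real.log x := Real.log_pos (by linarith)
  obtain ⟨w, hw⟩ : ∃ w : ℝ, w = (x : ℝ) ^ θ := ⟨_, rfl⟩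
  obtain ⟨z, hz⟩ : ∃ z : ℝ, z = (x : ℝ) ^ η := ⟨_, rfl⟩
  rw [← hw] at hw2
  rw [← hz] at hz2
  rw [← hz]
  have hzw : z ≤ w := by
    rw [hz, hw]
    exact Real.rpow_le_rpow_of_exponent_le hx1 hηθ
  have hlogw : Real.log w = θ * Real.log x := by rw [hw, Real.log_rpow hx0]
  have hlogz : Real.log z = η * Real.log x := by rw [hz, Real.log_rpow hx0]
  have hVw := (hM w hw2).2
  have hVz := (hM z hz2).1
  obtain ⟨V, hV⟩ : ∃ V, V = ∏ r ∈ primesUpTo z, (1 - (1 : ℝ) / r) := ⟨_, rfl⟩
  obtain ⟨W, hW⟩ : ∃ W, W = ∏ r ∈ primesUpTo w, (1 - (1 : ℝ) / r) := ⟨_, rfl⟩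
  rw [← hV] at hVz ⊢
  rw [← hW] at hVw
  have hV0 : 0 < V := lt_of_lt_of_le (by rw [hlogz]; positivity) hVz
  obtain ⟨Ω, hΩ⟩ : ∃ Ω : Finset (ℕ × ℕ), Ω = ((Finset.Ioc D (2 * D)) ×ˢ
      (Finset.range (x + h))).filter (fun y : ℕ × ℕ => x ≤ y.1 * y.2 ∧ y.1 * y.2 < x + h) :=
    ⟨_, rfl⟩
  have hh0 : (0 : ℝ) ≤ h := Nat.cast_nonneg h
  have hcnt : ∀ d e : ℕ, 0 < d → 0 < e →
      |evCount Ω (fun t => d ∣ t.1 ∧ e ∣ t.2) - ((h : ℝ) * Real.log 2) / (d * e)| ≤
        (x : ℝ) ^ (0.48 : ℝ) := by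
    intro d e hd he
    have h1 := hL x h D d e hxL hh2 hD1 hD2 hd he
    have h2 : evCount Ω (fun t => d ∣ t.1 ∧ e ∣ t.2) =
        ((((Finset.Ioc D (2 * D)) ×ˢ (Finset.range (x + h))).filter (fun y : ℕ × ℕ =>
        d ∣ y.1 ∧ e ∣ y.2 ∧ x ≤ y.1 * y.2 ∧ y.1 * y.2 < x + h)).card : ℝ) := by
      rw [evCount_eq, hΩ, Finset.filter_filter]
      congr 2
      ext y
      simp only [Finset.mem_filter]
      tauto
    rw [h2]
    convert h1 using 4
  have hmain := hS w hw2 z (by linarith) hzw Ω (h * Real.log 2) ((x : ℝ) ^ (0.48 : ℝ))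
    (by positivity) (by positivity) hcnt
  rw [← hV, ← hW] at hmain
  -- comparison of the sets
  have hsub : ((((Finset.Ioc D (2 * D)) ×ˢ (Finset.range (x + h))).filter (fun y : ℕ × ℕ =>
        y.1.Prime ∧ (∀ r : ℕ, r.Prime → r ∣ y.2 → z < r) ∧
          x ≤ y.1 * y.2 ∧ y.1 * y.2 < x + h)).card : ℝ) ≤
      evCount Ω (fun t => ∀ q : ℕ, q.Prime → ((q : ℝ) ≤ w → ¬ q ∣ t.1) ∧
        ((q : ℝ) ≤ z → ¬ q ∣ t.2)) := by
    rw [evCount_eq, hΩ, Finset.filter_filter]
    apply Nat.cast_le.2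
    apply Finset.card_le_card
    intro y hy
    rw [Finset.mem_filter] at hy ⊢
    obtain ⟨hy1, hy2, hy3, hy4, hy5⟩ := hy
    refine ⟨hy1, ⟨hy4, hy5⟩, ?_⟩
    intro q hq
    constructor
    · intro hqw hqd
      have h1 : q = y.1 := (Nat.prime_dvd_prime_iff_eq hq hy2).1 hqd
      have h2 : D < y.1 := (Finset.mem_Ioc.1 (Finset.mem_product.1 hy1).1).1
      have h3 : (D : ℝ) < y.1 := by exact_mod_cast h2
      have h4 : w ≤ (x : ℝ) ^ (0.48 : ℝ) := by
        rw [hw]
        apply Real.rpow_le_rpow_of_exponent_le hx1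
        linarith
      rw [h1] at hqw
      linarith
    · intro hqz hqd
      exact absurd (hy3 q hq hqd) (not_lt.2 hqz)
  have hgoal : 2 * ((h : ℝ) * Real.log 2) * (W * V) + (x : ℝ) ^ (0.48 : ℝ) * w ^ K ≤
      (2 * Real.log 2 * C1 / θ + 1) * h / Real.log x * V := by
    have h1 : 2 * ((h : ℝ) * Real.log 2) * (W * V) ≤
        2 * Real.log 2 * C1 / θ * h / Real.log x * V := by
      have h2 : W ≤ C1 / (θ * Real.log x) := by rw [← hlogw]; exact hVw
      calc 2 * ((h : ℝ) * Real.log 2) * (W * V) = (2 * ((h : ℝ) * Real.log 2) * V) * W := by ring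
        _ ≤ (2 * ((h : ℝ) * Real.log 2) * V) * (C1 / (θ * Real.log x)) :=
            mul_le_mul_of_nonneg_left h2 (by positivity)
        _ = _ := by field_simp
    have h2 : (x : ℝ) ^ (0.48 : ℝ) * w ^ K ≤ h / Real.log x * V := by
      have h3 : (x : ℝ) ^ (0.48 : ℝ) * w ^ K = (x : ℝ) ^ (0.485 : ℝ) := by
        rw [hw, ← Real.rpow_mul hx0.le, hθK, ← Real.rpow_add hx0]
        norm_num
      have h4 : c / (η * Real.log x) ≤ V := by rw [← hlogz]; exact hVz
      have h5 : (x : ℝ) ^ (0.49 : ℝ) = (x : ℝ) ^ (0.485 : ℝ) * (x : ℝ) ^ (0.005 : ℝ) := by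
        rw [← Real.rpow_add hx0]
        norm_num
      have h6 : 0 < (x : ℝ) ^ (0.485 : ℝ) := Real.rpow_pos_of_pos hx0 _
      rw [h3]
      calc (x : ℝ) ^ (0.485 : ℝ) ≤ (x : ℝ) ^ (0.485 : ℝ) *
            (c / η * (x : ℝ) ^ (0.005 : ℝ) / Real.log x ^ 2) := by
            have h7 : 1 ≤ c / η * (x : ℝ) ^ (0.005 : ℝ) / Real.log x ^ 2 := by
              rw [one_le_div (by positivity)]
              exact hlogx
            nlinarith
        _ = (x : ℝ) ^ (0.49 : ℝ) / Real.log x * (c / (η * Real.log x)) := by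
            rw [h5]
            field_simp
        _ ≤ h / Real.log x * (c / (η * Real.log x)) := by
            apply mul_le_mul_of_nonneg_right _ (by positivity)
            exact div_le_div_of_nonneg_right hh1 hlx.le
        _ ≤ h / Real.log x * V := mul_le_mul_of_nonneg_left h4 (by positivity)
    calc _ ≤ 2 * Real.log 2 * C1 / θ * h / Real.log x * V + h / Real.log x * V := add_le_add h1 h2
      _ = _ := by ring
  refine le_trans ?_ (hsub.trans (hmain.trans hgoal))
  refine le_of_eq ?_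
  congr 2

end Pool.Agent.Helper79.QRH
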