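import Pool.Agent.Helper96.CPAP.SieveK

/-!
# Fundamental lemma: the Brun-Hooley sieve with main term accuracy `1 ± δ`
-/

set_option autoImplicit false
set_option linter.unusedSectionVars false

open Finset Real

namespace Pool.Agent.Helper79.QRH

open Pool.Agent.Helper44 Pool.Agent.Helper96.CPAP

/-- The Brun-Hooley sieve with sharp main terms. -/
theorem brun_hooleyD {ι : Type*} [DecidableEq ι] {α : Type*} {t : ℕ} (Ω : Finset α)
    (occ : ι → α → Prop)
    (B : Fin t → Finset ι) (hB : ∀ i j, i ≠ j → Disjoint (B i) (B j)) (x : ι → ℝ)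
    (hx : ∀ j, ∀ i ∈ B j, 0 ≤ x i ∧ x i ≤ 1 / 2) (X E κ δ : ℝ) (hX : 0 ≤ X) (hE : 0 ≤ E)
    (hκ : 1 ≤ κ) (hδ1 : δ ≤ 1)
    (hcnt : ∀ I : Finset ι, I ⊆ Finset.univ.biUnion B →
      |evCount Ω (fun ω => ∀ i ∈ I, occ i ω) - X * ∏ i ∈ I, x i| ≤ E * κ ^ I.card)
    (m : Fin t → ℕ) (hm : ∀ j, Even (m j))
    (hr : ∑ j, es (B j) (m j + 1) x / ∏ i ∈ B j, (1 - x i) ≤ δ) :
    evCount Ω (fun ω => ∀ j, ∀ i ∈ B j, ¬ occ i ω) ≤
        Real.exp δ * X * (∏ j, ∏ i ∈ B j, (1 - x i)) +
          E * ∏ j, (κ * ((B j).card : ℝ) + 1) ^ (m j + 1) ∧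
    (1 - δ) * X * (∏ j, ∏ i ∈ B j, (1 - x i)) -
      E * ((t + 1) * ∏ j, (κ * ((B j).card : ℝ) + 1) ^ (m j + 1)) ≤
      evCount Ω (fun ω => ∀ j, ∀ i ∈ B j, ¬ occ i ω) := by
  obtain ⟨h1, h2⟩ := brun_hooley_rawK Ω occ B hB x X E κ hE hκ hcnt m hm
  have hx1 : ∀ j, ∀ i ∈ B j, 0 ≤ x i ∧ x i ≤ 1 := fun j i hi =>
    ⟨(hx j i hi).1, by linarith [(hx j i hi).2]⟩
  set V : Fin t → ℝ := fun j => ∏ i ∈ B j, (1 - x i) with hV
  have hVpos : ∀ j, 0 < V j := fun j => Finset.prod_pos fun i hi => by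
    linarith [(hx j i hi).2]
  set r : Fin t → ℝ := fun j => es (B j) (m j + 1) x / V j with hrdef
  have hr0 : ∀ j, 0 ≤ r j := fun j =>
    div_nonneg (es_nonneg _ _ _ fun i hi => (hx j i hi).1) (hVpos j).le
  have hVT : ∀ j, V j ≤ tr (B j) (m j) x := fun j => prod_le_tr_even _ _ (hx1 j) _ (hm j)
  have hTV : ∀ j, tr (B j) (m j) x ≤ V j * Real.exp (r j) := by
    intro j
    have h3 := tr_even_le (B j) x (hx1 j) (m j) (hm j)
    have h4 : es (B j) (m j + 1) x = V j * r j := by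
      simp only [hrdef]
      rw [mul_div_cancel₀ _ (hVpos j).ne']
    have h5 : r j + 1 ≤ Real.exp (r j) := Real.add_one_le_exp _
    calc tr (B j) (m j) x ≤ V j + V j * r j := by rw [← h4]; exact h3
      _ = V j * (r j + 1) := by ring
      _ ≤ V j * Real.exp (r j) := mul_le_mul_of_nonneg_left h5 (hVpos j).le
  have hr' : ∑ j, r j ≤ δ := hr
  have hT0 : ∀ j, 0 < tr (B j) (m j) x := fun j => (hVpos j).trans_le (hVT j)
  have hPV : 0 < ∏ j, V j := Finset.prod_pos fun j _ => hVpos j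
  have hPT : 0 < ∏ j, tr (B j) (m j) x := Finset.prod_pos fun j _ => hT0 j
  have hup : ∏ j, tr (B j) (m j) x ≤ Real.exp δ * ∏ j, V j := by
    calc ∏ j, tr (B j) (m j) x ≤ ∏ j, (V j * Real.exp (r j)) :=
          Finset.prod_le_prod (fun j _ => (hT0 j).le) (fun j _ => hTV j)
      _ = (∏ j, V j) * Real.exp (∑ j, r j) := by
          rw [Finset.prod_mul_distrib, Real.exp_sum]
      _ ≤ (∏ j, V j) * Real.exp δ := by
          apply mul_le_mul_of_nonneg_left _ hPV.le
          exact Real.exp_le_exp.mpr hr'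
      _ = Real.exp δ * ∏ j, V j := by ring
  constructor
  · refine h1.trans ?_
    have : X * ∏ j, tr (B j) (m j) x ≤ X * (Real.exp δ * ∏ j, V j) :=
      mul_le_mul_of_nonneg_left hup hX
    linarith
  · refine le_trans ?_ h2
    have hsum : ∑ l, ∏ j, (if j = l then es (B l) (m l + 1) x else tr (B j) (m j) x) ≤
        δ * ∏ j, tr (B j) (m j) x := by
      calc ∑ l, ∏ j, (if j = l then es (B l) (m l + 1) x else tr (B j) (m j) x)
          ≤ ∑ l, r l * ∏ j, tr (B j) (m j) x := by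
            apply Finset.sum_le_sum
            intro l _
            rw [← Finset.mul_prod_erase Finset.univ _ (Finset.mem_univ l),
              ← Finset.mul_prod_erase Finset.univ (fun j => tr (B j) (m j) x) (Finset.mem_univ l),
              if_pos rfl, ← mul_assoc]
            have h7 : ∏ j ∈ Finset.univ.erase l,
                (if j = l then es (B l) (m l + 1) x else tr (B j) (m j) x) =
                ∏ j ∈ Finset.univ.erase l, tr (B j) (m j) x := by
              apply Finset.prod_congr rfl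
              intro j hj
              rw [if_neg (Finset.ne_of_mem_erase hj)]
            rw [h7]
            apply mul_le_mul_of_nonneg_right _ (Finset.prod_nonneg fun j _ => (hT0 j).le)
            have h8 : es (B l) (m l + 1) x = r l * V l := by
              simp only [hrdef]
              rw [div_mul_cancel₀ _ (hVpos l).ne']
            rw [h8]
            exact mul_le_mul_of_nonneg_left (hVT l) (hr0 l)
        _ = (∑ l, r l) * ∏ j, tr (B j) (m j) x := by rw [Finset.sum_mul]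
        _ ≤ δ * ∏ j, tr (B j) (m j) x := mul_le_mul_of_nonneg_right hr' hPT.le
    have hlow : ∏ j, V j ≤ ∏ j, tr (B j) (m j) x :=
      Finset.prod_le_prod (fun j _ => (hVpos j).le) (fun j _ => hVT j)
    have : X * ((1 - δ) * ∏ j, V j) ≤ X * (∏ j, tr (B j) (m j) x -
        ∑ l, ∏ j, (if j = l then es (B l) (m l + 1) x else tr (B j) (m j) x)) := by
      apply mul_le_mul_of_nonneg_left _ hX
      have h9 : (1 - δ) * ∏ j, V j ≤ (1 - δ) * ∏ j, tr (B j) (m j) x :=
        mul_le_mul_of_nonneg_left hlow (by linarith)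
      linarith
    linarith

/-- The `k`-dimensional Brun-Hooley sieve with main term accuracy `1 ± δ`. -/
theorem sieveFL (k : ℕ) (δ : ℝ) (hδ0 : 0 < δ) (hδ1 : δ ≤ 1) :
    ∃ K : ℝ, 1 ≤ K ∧ ∀ (α : Type) (P : ℕ → Prop),
    (∀ q, P q → q.Prime ∧ 2 * k ≤ q) → ∀ ν : ℕ → ℝ, (∀ q, P q → 0 ≤ ν q ∧ ν q ≤ k) →
    ∀ w : ℝ, 2 ≤ w → ∀ (Ω : Finset α) (occ : ℕ → α → Prop) (X E : ℝ), 0 ≤ X → 0 ≤ E →
    (∀ I : Finset ℕ, (∀ q ∈ I, P q ∧ (q : ℝ) ≤ w) →
      |evCount Ω (fun ω => ∀ q ∈ I, occ q ω) - X * ∏ q ∈ I, (ν q / q)| ≤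
        E * ((k : ℝ) + 1) ^ I.card) →
    evCount Ω (fun ω => ∀ q : ℕ, P q → (q : ℝ) ≤ w → ¬ occ q ω) ≤
        Real.exp δ * X * (∏ q ∈ pU P w, (1 - ν q / q)) + E * w ^ K ∧
    (1 - δ) * X * (∏ q ∈ pU P w, (1 - ν q / q)) - E * w ^ K ≤
      evCount Ω (fun ω => ∀ q : ℕ, P q → (q : ℝ) ≤ w → ¬ occ q ω) := by
  obtain ⟨S0, hS0, hS⟩ := sum_inv_pb_le
  set S1 : ℝ := k * S0 with hS1
  have hS1n : 0 ≤ S1 := by positivity
  have hsum : Summable (fun n : ℕ => S1 ^ n / (n.factorial : ℝ)) :=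
    Real.summable_pow_div_factorial S1
  obtain ⟨s0, hs0⟩ := summable_iff_vanishing_norm.mp hsum (Real.exp (-(2 * S1)) * δ)
    (by positivity)
  set b := s0.sup id + 1 with hb
  set K0 : ℝ := ((k : ℝ) + 2) * (4 * b + 6) with hK0
  have hK0' : 0 ≤ K0 := by positivity
  refine ⟨K0 + 2, by linarith, ?_⟩
  intro α P hP ν hν w hw Ω occ X E hX hE hcnt
  have hP' : ∀ q, P q → q.Prime := fun q h => (hP q h).1
  have hw1 : (1 : ℝ) ≤ w := by linarith
  have hw0 : (0 : ℝ) < w := by linarith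
  have hdisj : ∀ i j : Fin (nb w), i ≠ j → Disjoint (pb P w i) (pb P w j) := by
    intro i j hij
    exact pb_disjoint hw1 (fun h => hij (Fin.ext h))
  have hx : ∀ j : ℕ, ∀ i ∈ pb P w j, 0 ≤ ν i / i ∧ ν i / i ≤ 1 / 2 := by
    intro j i hi
    rw [mem_pb] at hi
    have h1 := hP i hi.2
    have h2 := hν i hi.2
    have hq0 : (0 : ℝ) < i := by exact_mod_cast h1.1.pos
    have h3 : (2 : ℝ) * k ≤ i := by exact_mod_cast h1.2
    refine ⟨div_nonneg h2.1 hq0.le, ?_⟩
    rw [div_le_iff₀ hq0]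
    linarith
  have hcnt' : ∀ I : Finset ℕ,
      I ⊆ Finset.univ.biUnion (fun j : Fin (nb w) => pb P w j) →
      |evCount Ω (fun ω => ∀ i ∈ I, occ i ω) - X * ∏ i ∈ I, (ν i / i)| ≤
        E * ((k : ℝ) + 1) ^ I.card := by
    intro I hI
    apply hcnt
    intro q hq
    have := hI hq
    rwa [biUnion_pb hP' hw, mem_pU hP' hw0.le] at this
  have hsumx : ∀ j : ℕ, ∑ i ∈ pb P w j, ν i / i ≤ S1 := by
    intro j
    calc ∑ i ∈ pb P w j, ν i / i ≤ ∑ i ∈ pb P w j, k * ((1 : ℝ) / i) := by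
          apply Finset.sum_le_sum
          intro i hi
          rw [mem_pb] at hi
          have hq0 : (0 : ℝ) < i := by exact_mod_cast (hP' i hi.2).pos
          rw [mul_one_div]
          exact div_le_div_of_nonneg_right (hν i hi.2).2 hq0.le
      _ = k * ∑ i ∈ pb P w j, (1 : ℝ) / i := by rw [Finset.mul_sum]
      _ ≤ k * S0 := mul_le_mul_of_nonneg_left (hS P hP' w hw j) (by positivity)
  have hVlow : ∀ j : Fin (nb w), Real.exp (-(2 * S1)) ≤ ∏ i ∈ pb P w j, (1 - ν i / i) := by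
    intro j
    calc Real.exp (-(2 * S1)) ≤ Real.exp (-∑ i ∈ pb P w j, 2 * (ν i / i)) := by
          apply Real.exp_le_exp.mpr
          rw [← Finset.mul_sum]
          have := hsumx j
          linarith
      _ = ∏ i ∈ pb P w j, Real.exp (-(2 * (ν i / i))) := by
          rw [← Finset.sum_neg_distrib, Real.exp_sum]
      _ ≤ _ := by
          apply Finset.prod_le_prod
          · intro i _; exact (Real.exp_pos _).le
          · intro i hi
            have := hx j i hi
            exact one_sub_ge_exp this.1 this.2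
  have hr : ∑ j : Fin (nb w), es (pb P w j) (2 * (b + (j : ℕ)) + 1) (fun q => ν q / q) /
      ∏ i ∈ pb P w j, (1 - ν i / i) ≤ δ := by
    have hterm : ∀ j : Fin (nb w), es (pb P w j) (2 * (b + (j : ℕ)) + 1) (fun q => ν q / q) /
        ∏ i ∈ pb P w j, (1 - ν i / i) ≤
        (S1 ^ (2 * (b + (j : ℕ)) + 1) / ((2 * (b + (j : ℕ)) + 1).factorial : ℝ)) *
          Real.exp (2 * S1) := by
      intro j
      have h1 : es (pb P w j) (2 * (b + (j : ℕ)) + 1) (fun q => ν q / q) ≤
          S1 ^ (2 * (b + (j : ℕ)) + 1) / ((2 * (b + (j : ℕ)) + 1).factorial : ℝ) := by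
        refine (es_le_pow_div_factorial _ _ (fun i hi => (hx j i hi).1) _).trans ?_
        apply div_le_div_of_nonneg_right _ (by positivity)
        apply pow_le_pow_left₀ (Finset.sum_nonneg fun i hi => (hx j i hi).1) (hsumx j)
      have h2 := hVlow j
      have h3 : 0 < Real.exp (-(2 * S1)) := Real.exp_pos _
      rw [div_le_iff₀ (h3.trans_le h2)]
      calc es (pb P w j) (2 * (b + (j : ℕ)) + 1) (fun q => ν q / q)
          ≤ S1 ^ (2 * (b + (j : ℕ)) + 1) / ((2 * (b + (j : ℕ)) + 1).factorial : ℝ) * 1 := by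
            rw [mul_one]; exact h1
        _ = S1 ^ (2 * (b + (j : ℕ)) + 1) / ((2 * (b + (j : ℕ)) + 1).factorial : ℝ) *
              (Real.exp (2 * S1) * Real.exp (-(2 * S1))) := by
            rw [← Real.exp_add]; simp
        _ ≤ S1 ^ (2 * (b + (j : ℕ)) + 1) / ((2 * (b + (j : ℕ)) + 1).factorial : ℝ) *
              (Real.exp (2 * S1) * ∏ i ∈ pb P w j, (1 - ν i / i)) := by
            gcongr
        _ = _ := by ring
    calc ∑ j : Fin (nb w), es (pb P w j) (2 * (b + (j : ℕ)) + 1) (fun q => ν q / q) /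
          ∏ i ∈ pb P w j, (1 - ν i / i)
        ≤ ∑ j : Fin (nb w), (S1 ^ (2 * (b + (j : ℕ)) + 1) /
            ((2 * (b + (j : ℕ)) + 1).factorial : ℝ)) * Real.exp (2 * S1) :=
          Finset.sum_le_sum fun j _ => hterm j
      _ = (∑ n ∈ (Finset.univ : Finset (Fin (nb w))).image
            (fun j : Fin (nb w) => 2 * (b + (j : ℕ)) + 1),
            S1 ^ n / (n.factorial : ℝ)) * Real.exp (2 * S1) := by
          rw [← Finset.sum_mul, Finset.sum_image]
          intro i _ j _ hij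
          apply Fin.ext
          simp only at hij
          omega
      _ ≤ (Real.exp (-(2 * S1)) * δ) * Real.exp (2 * S1) := by
          apply mul_le_mul_of_nonneg_right _ (Real.exp_pos _).le
          have h4 := hs0 ((Finset.univ : Finset (Fin (nb w))).image
            (fun j : Fin (nb w) => 2 * (b + (j : ℕ)) + 1)) ?_
          · rw [Real.norm_eq_abs] at h4
            exact (le_abs_self _).trans h4.le
          · rw [Finset.disjoint_left]
            intro n hn hn'
            rw [Finset.mem_image] at hn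
            obtain ⟨j, _, rfl⟩ := hn
            have : id (2 * (b + (j : ℕ)) + 1) ≤ s0.sup id := Finset.le_sup (f := id) hn'
            simp only [id] at this
            omega
      _ = δ := by
          rw [mul_comm (Real.exp (-(2 * S1))) δ, mul_assoc, ← Real.exp_add]; simp
  have hmain := brun_hooleyD Ω occ (fun j : Fin (nb w) => pb P w j) hdisj (fun q => ν q / q)
    (fun j i hi => hx j i hi) X E ((k : ℝ) + 1) δ hX hE
    (by linarith [Nat.cast_nonneg (α := ℝ) k]) hδ1
    hcnt' (fun j => 2 * (b + (j : ℕ)))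
    (fun j => even_two_mul _) hr
  -- identify the event
  have hevent : (fun ω : α => ∀ j : Fin (nb w), ∀ i ∈ pb P w j, ¬ occ i ω) =
      (fun ω => ∀ q : ℕ, P q → (q : ℝ) ≤ w → ¬ occ q ω) := by
    funext ω
    apply propext
    constructor
    · intro h q hq hqw
      have : q ∈ (Finset.univ : Finset (Fin (nb w))).biUnion (fun j => pb P w j) := by
        rw [biUnion_pb hP' hw, mem_pU hP' hw0.le]
        exact ⟨hq, hqw⟩
      rw [Finset.mem_biUnion] at this
      obtain ⟨j, _, hj⟩ := this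
      exact h j q hj
    · intro h j i hi
      have hi' : i ∈ (Finset.univ : Finset (Fin (nb w))).biUnion (fun j => pb P w j) :=
        Finset.mem_biUnion.mpr ⟨j, Finset.mem_univ _, hi⟩
      rw [biUnion_pb hP' hw, mem_pU hP' hw0.le] at hi'
      exact h i hi'.1 hi'.2
  rw [hevent] at hmain
  -- the product
  have hprodV : ∏ j : Fin (nb w), ∏ i ∈ pb P w j, (1 - ν i / i) =
      ∏ q ∈ pU P w, (1 - ν q / q) := by
    rw [← Finset.prod_biUnion, biUnion_pb hP' hw]
    intro i _ j _ hij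
    exact hdisj i j hij
  rw [hprodV] at hmain
  have hprod := prod_pb_card_le hP' k hw b
  have hprod0 : 0 ≤ ∏ j : Fin (nb w),
      (((k : ℝ) + 1) * ((pb P w j).card : ℝ) + 1) ^ (2 * (b + (j : ℕ)) + 1) :=
    Finset.prod_nonneg fun j _ => by positivity
  have hwK : w ^ (K0 + 2) = w ^ K0 * w ^ 2 := by
    rw [Real.rpow_add hw0]
    norm_num
  have hwK0 : 0 < w ^ K0 := Real.rpow_pos_of_pos hw0 _
  have hnb : (nb w : ℝ) + 1 ≤ w ^ 2 := by
    unfold nb
    push_cast
    have := Nat.floor_le hw0.le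
    nlinarith
  constructor
  · refine hmain.1.trans ?_
    have h2 : E * ∏ j : Fin (nb w),
        (((k : ℝ) + 1) * ((pb P w j).card : ℝ) + 1) ^ (2 * (b + (j : ℕ)) + 1) ≤
        E * w ^ (K0 + 2) := by
      apply mul_le_mul_of_nonneg_left _ hE
      refine hprod.trans ?_
      rw [hwK]
      have : (1 : ℝ) ≤ w ^ 2 := one_le_pow₀ hw1
      nlinarith
    linarith
  · refine le_trans ?_ hmain.2
    have h2 : E * (((nb w : ℕ) + 1) *
        ∏ j : Fin (nb w), (((k : ℝ) + 1) * ((pb P w j).card : ℝ) + 1) ^ (2 * (b + (j : ℕ)) + 1)) ≤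
        E * w ^ (K0 + 2) := by
      apply mul_le_mul_of_nonneg_left _ hE
      rw [hwK, mul_comm (w ^ K0)]
      exact mul_le_mul hnb hprod hprod0 (by positivity)
    linarith

end Pool.Agent.Helper79.QRH
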