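import Pool.Agent.Helper10.QRH.StB
import Pool.Agent.Helper79.QRH.FL

/-!
# QRH-B6: fundamental lemma for rough numbers in short intervals
-/

set_option autoImplicit false

open Finset Real

namespace Pool.Agent.Helper79.QRH

open Pool.Agent.Helper10.QRH
open Pool.Agent.Helper44 Pool.Agent.Helper96.CPAP

/-- multiples of `d` in an interval -/
theorem card_dvd_Ico (d : ℕ) (hd : 0 < d) (y l : ℕ) :
    |(((Finset.Ico y (y + l)).filter (fun n => d ∣ n)).card : ℝ) - l / d| ≤ 1 := by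
  have h1 := Nat.Ico_filter_modEq_card y (y + l) hd 0
  have h2 : (Finset.Ico y (y + l)).filter (fun n => n ≡ 0 [MOD d]) =
      (Finset.Ico y (y + l)).filter (fun n => d ∣ n) := by
    ext n
    simp only [Finset.mem_filter, Nat.modEq_zero_iff_dvd]
  rw [h2] at h1
  have hd' : (0 : ℚ) < d := by exact_mod_cast hd
  obtain ⟨p, hp⟩ : ∃ p : ℚ, p = ((y + l : ℕ) - (0 : ℕ) : ℚ) / d := ⟨_, rfl⟩
  obtain ⟨q, hq⟩ : ∃ q : ℚ, q = ((y : ℕ) - (0 : ℕ) : ℚ) / d := ⟨_, rfl⟩
  rw [← hp, ← hq] at h1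
  have hpq : p - q = l / d := by
    rw [hp, hq]
    push_cast
    ring
  have c1 := Int.le_ceil p
  have c2 := Int.ceil_lt_add_one p
  have c3 := Int.le_ceil q
  have c4 := Int.ceil_lt_add_one q
  have hnn : (0 : ℚ) ≤ (l : ℚ) / d := by positivity
  have hQ : |((((Finset.Ico y (y + l)).filter (fun n => d ∣ n)).card : ℤ) : ℚ) - l / d| ≤ 1 := by
    rw [h1, abs_le]
    rcases le_total (⌈p⌉ - ⌈q⌉) 0 with h | h
    · rw [max_eq_right h]
      have h' : ((⌈p⌉ - ⌈q⌉ : ℤ) : ℚ) ≤ 0 := by exact_mod_cast h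
      push_cast at h' ⊢
      constructor <;> linarith
    · rw [max_eq_left h]
      push_cast
      constructor <;> linarith
  have hR : |((((Finset.Ico y (y + l)).filter (fun n => d ∣ n)).card : ℕ) : ℝ) - l / d| =
      ((|((((Finset.Ico y (y + l)).filter (fun n => d ∣ n)).card : ℤ) : ℚ) - l / d| : ℚ) : ℝ) := by
    push_cast
    rfl
  rw [hR]
  exact_mod_cast hQ

theorem rough : Rough := by
  classical
  intro ε hε
  obtain ⟨ε', hε'⟩ : ∃ ε', ε' = min ε 1 := ⟨_, rfl⟩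
  have hε'0 : 0 < ε' := by rw [hε']; exact lt_min hε one_pos
  have hε'1 : ε' ≤ 1 := by rw [hε']; exact min_le_right _ _
  have hε'e : ε' ≤ ε := by rw [hε']; exact min_le_left _ _
  obtain ⟨K, hK, hFL⟩ := sieveFL 1 (ε' / 4) (by positivity) (by linarith)
  obtain ⟨c, C, hc, hC, hM⟩ := mertens_prod
  -- the threshold
  have hlim : ∀ᶠ z : ℝ in Filter.atTop, Real.log z / z ≤ ε' / 4 * c := by
    have h1 : Filter.Tendsto (fun z : ℝ => Real.log z / z) Filter.atTop (nhds 0) :=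
      Real.isLittleO_log_id_atTop.tendsto_div_nhds_zero
    have h2 : (0 : ℝ) < ε' / 4 * c := by positivity
    filter_upwards [(tendsto_order.1 h1).2 _ h2] with z hz using hz.le
  obtain ⟨z1, hz1⟩ := Filter.eventually_atTop.1 hlim
  refine ⟨K + 1, max z1 2, by linarith, ?_⟩
  intro z hz y l hl
  have hz2 : 2 ≤ z := (le_max_right _ _).trans hz
  have hz0 : 0 < z := by linarith
  have hlog := hz1 z ((le_max_left _ _).trans hz)
  have hlz : 0 < Real.log z := Real.log_pos (by linarith)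
  have hl0 : (0 : ℝ) ≤ l := Nat.cast_nonneg l
  obtain ⟨V, hV⟩ : ∃ V, V = ∏ r ∈ primesUpTo z, (1 - (1 : ℝ) / r) := ⟨_, rfl⟩
  have hVc : c / Real.log z ≤ V := by rw [hV]; exact (hM z hz2).1
  have hV0 : 0 < V := lt_of_lt_of_le (by positivity) hVc
  have hpU : pU Nat.Prime z = primesUpTo z := by
    ext q
    rw [mem_pU (fun _ h => h) hz0.le, mem_primesUpTo hz0.le]
  have hcnt : ∀ I : Finset ℕ, (∀ q ∈ I, q.Prime ∧ (q : ℝ) ≤ z) →
      |evCount (Finset.Ico y (y + l)) (fun n => ∀ q ∈ I, q ∣ n) -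
        (l : ℝ) * ∏ q ∈ I, ((1 : ℝ) / q)| ≤ 1 * (((1 : ℕ) : ℝ) + 1) ^ I.card := by
    intro I hI
    have hdvd : ∀ n : ℕ, (∀ q ∈ I, q ∣ n) ↔ (∏ q ∈ I, q) ∣ n := by
      intro n
      constructor
      · intro h
        exact Finset.prod_primes_dvd n (fun q hq => (hI q hq).1.prime) h
      · intro h q hq
        exact (Finset.dvd_prod_of_mem _ hq).trans h
    have hpos : 0 < ∏ q ∈ I, q := Finset.prod_pos fun q hq => (hI q hq).1.pos
    have h1 := card_dvd_Ico (∏ q ∈ I, q) hpos y l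
    have h2 : evCount (Finset.Ico y (y + l)) (fun n => ∀ q ∈ I, q ∣ n) =
        (((Finset.Ico y (y + l)).filter (fun n => (∏ q ∈ I, q) ∣ n)).card : ℝ) := by
      rw [evCount_eq]
      congr 2
      ext n
      simp only [Finset.mem_filter, hdvd]
    have h3 : (l : ℝ) * ∏ q ∈ I, ((1 : ℝ) / q) = l / ((∏ q ∈ I, q : ℕ) : ℝ) := by
      push_cast
      rw [Finset.prod_div_distrib, Finset.prod_const_one, mul_one_div]
    rw [h2, h3]
    refine h1.trans ?_
    rw [one_mul]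
    apply one_le_pow₀
    push_cast
    norm_num
  obtain ⟨hup, hlow⟩ := hFL ℕ Nat.Prime (fun q hq => ⟨hq, by have := hq.two_le; omega⟩)
    (fun _ => 1) (fun q _ => ⟨zero_le_one, by push_cast; exact le_rfl⟩) z hz2
    (Finset.Ico y (y + l)) (fun q n => q ∣ n) l 1 hl0 zero_le_one hcnt
  rw [hpU, ← hV] at hup hlow
  have hev : evCount (Finset.Ico y (y + l))
      (fun n => ∀ q : ℕ, q.Prime → (q : ℝ) ≤ z → ¬ q ∣ n) =
      (((Finset.Ico y (y + l)).filter (fun n => ∀ r : ℕ, r.Prime → r ∣ n → z < r)).card : ℝ) := by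
    rw [evCount_eq]
    congr 2
    ext n
    simp only [Finset.mem_filter]
    constructor
    · rintro ⟨h1, h2⟩
      exact ⟨h1, fun r hr hrn => not_le.1 fun h => h2 r hr h hrn⟩
    · rintro ⟨h1, h2⟩
      exact ⟨h1, fun r hr h hrn => absurd (h2 r hr hrn) (not_lt.2 h)⟩
  rw [hev] at hup hlow
  rw [← hV]
  -- the error term
  have herr : 1 * z ^ K ≤ ε' / 4 * l * V := by
    rw [one_mul]
    have h1 : z ^ (K + 1) = z ^ K * z := by rw [Real.rpow_add hz0, Real.rpow_one]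
    rw [h1] at hl
    have h2 : z ^ K ≤ l / z := by
      rw [le_div_iff₀ hz0]
      exact hl
    refine h2.trans ?_
    have h3 : (l : ℝ) / z ≤ ε' / 4 * l * (c / Real.log z) := by
      have h4 : (l : ℝ) / z = l * (Real.log z / z) / Real.log z := by
        field_simp
      rw [h4, mul_div_assoc' (ε' / 4 * (l : ℝ)) c]
      apply div_le_div_of_nonneg_right _ hlz.le
      calc (l : ℝ) * (Real.log z / z) ≤ l * (ε' / 4 * c) := mul_le_mul_of_nonneg_left hlog hl0
        _ = ε' / 4 * l * c := by ring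
    exact h3.trans (mul_le_mul_of_nonneg_left hVc (by positivity))
  have hexp : Real.exp (ε' / 4) ≤ 1 + ε' / 2 := by
    have h1 : |ε' / 4| ≤ 1 := by
      rw [abs_of_nonneg (by positivity)]; linarith
    have h2 := Real.abs_exp_sub_one_sub_id_le h1
    rw [abs_le] at h2
    nlinarith [h2.2]
  have hlV : 0 ≤ (l : ℝ) * V := by positivity
  constructor
  · refine le_trans ?_ hlow
    have h5 : (1 - ε) * ((l : ℝ) * V) ≤ (1 - ε') * ((l : ℝ) * V) :=
      mul_le_mul_of_nonneg_right (by linarith) hlV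
    nlinarith
  · refine hup.trans ?_
    have h5 : (1 + ε') * ((l : ℝ) * V) ≤ (1 + ε) * ((l : ℝ) * V) :=
      mul_le_mul_of_nonneg_right (by linarith) hlV
    have h6 : Real.exp (ε' / 4) * ((l : ℝ) * V) ≤ (1 + ε' / 2) * ((l : ℝ) * V) :=
      mul_le_mul_of_nonneg_right hexp hlV
    nlinarith

end Pool.Agent.Helper79.QRH
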